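import Pool.Agent.X214.S7.Orbits

/-!
The differentials of the orbit maps of the action of `S¹ × S³` on `S⁷`, and invariance of the round
metric.
-/

open Bundle Manifold ContDiff ContinuousLinearMap Filter VectorField Metric
open scoped Topology RealInnerProductSpace Quaternion

set_option autoImplicit false
set_option synthInstance.maxHeartbeats 400000
set_option maxHeartbeats 4000000
set_option linter.unusedSectionVars false

noncomputable section

namespace Pool.Agent.X214.S7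

open Pool.Agent.H821R2 Pool.Agent.H821R3 Pool.Agent.H893R5.HO

attribute [local irreducible] amb

theorem contDiff_ambF : ContDiff ℝ ∞ ambF := contDiff_amb

/-- the ambient orbit map -/
def ambX (x : W) (z : ℂ × ℍ) : W := amb z.1 z.2 x

theorem contDiff_ambX (x : W) : ContDiff ℝ ∞ (ambX x) :=
  ContDiff.comp (g := ambF) (f := fun z : ℂ × ℍ => (z, x)) contDiff_ambF
    (contDiff_id.prodMk contDiff_const)

theorem ee_ambX (x : W) (z : ℂ × ℍ) :
    ee (ambX x z) = (cc z.1 * (ee x).1 * star z.2, (ee x).2 * star z.2) := ee_amb _ _ _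

attribute [local irreducible] ambX

/-- the differential of the ambient orbit map at `(1, 1)` -/
def Lx (x : W) (v : ℂ × ℍ) : W := ee.symm (cc v.1 * (ee x).1 + (ee x).1 * star v.2,
  (ee x).2 * star v.2)

theorem ee_Lx (x : W) (v : ℂ × ℍ) : ee (Lx x v) = (cc v.1 * (ee x).1 + (ee x).1 * star v.2,
    (ee x).2 * star v.2) := ee.apply_symm_apply _

attribute [local irreducible] Lx

theorem line (x : W) (v : ℂ × ℍ) (t : ℝ) : ambX x (((1 : ℂ), (1 : ℍ)) + t • v) =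
    x + t • Lx x v + t ^ 2 • ee.symm (cc v.1 * (ee x).1 * star v.2, 0) := by
  refine ee.injective ?_
  rw [ee_ambX, map_add, map_add, map_smul, map_smul, ee.apply_symm_apply, ee_Lx]
  have e1 : cc 1 = 1 := by
    rw [cc_apply]
    simp
  have e2 : cc ((((1 : ℂ), (1 : ℍ)) + t • v).1) = 1 + t • cc v.1 := by
    rw [Prod.fst_add, Prod.smul_fst, map_add, map_smul, e1]
  have e3 : star ((((1 : ℂ), (1 : ℍ)) + t • v).2) = 1 + t • star v.2 := by
    rw [Prod.snd_add, Prod.smul_snd, star_add, star_one, Quaternion.star_smul]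
  rw [e2, e3]
  refine Prod.ext ?_ ?_
  · simp only [Prod.fst_add, Prod.smul_fst]
    simp only [add_mul, mul_add, one_mul, mul_one, smul_mul_assoc, mul_smul_comm, smul_add,
      smul_smul]
    rw [← sq]
    abel
  · simp only [Prod.snd_add, Prod.smul_snd, smul_zero, add_zero]
    simp only [mul_add, mul_one, mul_smul_comm]

theorem fderiv_amb (x : W) (v : ℂ × ℍ) : fderiv ℝ (ambX x) (1, 1) v = Lx x v := by
  have hd : DifferentiableAt ℝ (ambX x) (1, 1) :=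
    ((contDiff_ambX x).differentiable (by simp)).differentiableAt
  have h2 : HasDerivAt (fun t : ℝ => ((1 : ℂ), (1 : ℍ)) + t • v) v 0 := by
    have h3 := ((hasDerivAt_id (0 : ℝ)).smul_const v).const_add ((1 : ℂ), (1 : ℍ))
    simpa using h3
  have e0 : (((1 : ℂ), (1 : ℍ)) + (0 : ℝ) • v) = (1, 1) := by rw [zero_smul, add_zero]
  have hd' : HasFDerivAt (ambX x) (fderiv ℝ (ambX x) (1, 1))
      ((fun t : ℝ => ((1 : ℂ), (1 : ℍ)) + t • v) 0) := by
    simp only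
    rw [e0]
    exact hd.hasFDerivAt
  have h4 := hd'.comp_hasDerivAt (0 : ℝ) h2
  have h5 : HasDerivAt (ambX x ∘ fun t : ℝ => ((1 : ℂ), (1 : ℍ)) + t • v) (Lx x v) 0 := by
    have e : (ambX x ∘ fun t : ℝ => ((1 : ℂ), (1 : ℍ)) + t • v) =
        fun t : ℝ => x + t • Lx x v + t ^ 2 • ee.symm (cc v.1 * (ee x).1 * star v.2, 0) := by
      funext t
      exact line x v t
    rw [e]
    have h6 := (((hasDerivAt_id (0 : ℝ)).smul_const (Lx x v)).const_add x).add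
      (((hasDerivAt_id (0 : ℝ)).pow 2).smul_const
        (ee.symm (cc v.1 * (ee x).1 * star v.2, 0)))
    refine h6.congr_deriv ?_
    simp
  exact h4.unique h5

/-- The differential of the orbit map of `x` at `1`. -/
theorem d_orbit (x : S7) (ξ : TangentSpace ((𝓡 1).prod (𝓡 3)) (1 : G)) :
    mvfderiv (𝓡 7) (fun y : S7 => (y : W)) ((1 : G) • x)
      (mfderiv ((𝓡 1).prod (𝓡 3)) (𝓡 7) (fun g : G => g • x) 1 ξ) =
    Lx (x : W) (mvfderiv (𝓡 1) (fun a : S1 => (a : ℂ)) 1 (ξ.1 : EuclideanSpace ℝ (Fin 1)),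
      mvfderiv (𝓡 3) (fun b : S3 => (b : ℍ)) 1 (ξ.2 : EuclideanSpace ℝ (Fin 3))) := by
  have hs : ContMDiff ((𝓡 1).prod (𝓡 3)) (𝓡 7) ∞ (fun g : G => g • x) :=
    ContMDiff.comp (g := fun z : G × S7 => z.1 • z.2) (f := fun g : G => (g, x)) smooth_act
      (contMDiff_id.prodMk contMDiff_const)
  have k1 : MDifferentiableAt ((𝓡 1).prod (𝓡 3)) (𝓡 7) (fun g : G => g • x) 1 :=
    hs.mdifferentiableAt (by simp)
  have k2 : MDifferentiableAt (𝓡 7) 𝓘(ℝ, W) (fun y : S7 => (y : W)) ((1 : G) • x) :=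
    (contMDiff_coe_sphere (m := ∞)).mdifferentiableAt (by simp)
  have k3 := mfderiv_comp (1 : G) k2 k1
  have k4 : MDifferentiableAt ((𝓡 1).prod (𝓡 3)) 𝓘(ℝ, ℂ × ℍ) (sj ℂ ℍ) (1 : G) :=
    (smooth_sj 1 3).mdifferentiableAt (by simp)
  have hd : DifferentiableAt ℝ (ambX (x : W)) (sj ℂ ℍ (1 : G)) :=
    ((contDiff_ambX (x : W)).differentiable (by simp)).differentiableAt
  have k5 := mfderiv_comp (1 : G) (g := ambX (x : W)) (f := sj ℂ ℍ)
    (I := (𝓡 1).prod (𝓡 3)) (I' := 𝓘(ℝ, ℂ × ℍ)) (I'' := 𝓘(ℝ, W)) hd.mdifferentiableAt k4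
  have e : (fun y : S7 => (y : W)) ∘ (fun g : G => g • x) = ambX (x : W) ∘ sj ℂ ℍ := by
    funext g
    refine (coe_smul g x).trans ?_
    unfold ambX
    rfl
  rw [e, k5] at k3
  have k6 := d_sj (V₁ := ℂ) (V₂ := ℍ) 1 3 (1 : G) ξ
  have k7 : fderiv ℝ (ambX (x : W)) (sj ℂ ℍ (1 : G))
      (mvfderiv ((𝓡 1).prod (𝓡 3)) (sj ℂ ℍ) (1 : G) ξ) =
      Lx (x : W) (mvfderiv ((𝓡 1).prod (𝓡 3)) (sj ℂ ℍ) (1 : G) ξ) := fderiv_amb (x : W) _
  refine Eq.trans ?_ (k7.trans (congrArg (Lx (x : W)) k6))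
  have k8 : mfderiv 𝓘(ℝ, ℂ × ℍ) 𝓘(ℝ, W) (ambX (x : W))
      (sj ℂ ℍ (1 : G)) = fderiv ℝ (ambX (x : W)) (sj ℂ ℍ (1 : G)) :=
    mfderiv_eq_fderiv
  rw [k8] at k3
  exact (congrArg (fun L : (EuclideanSpace ℝ (Fin 1) × EuclideanSpace ℝ (Fin 3)) →L[ℝ] W => L ξ)
    k3).symm

theorem exists_tangent1 {a : ℂ} (h : ⟪(1 : ℂ), a⟫ = 0) : ∃ v : EuclideanSpace ℝ (Fin 1),
    mvfderiv (𝓡 1) (fun a : S1 => (a : ℂ)) 1 v = a := by
  have h1 : a ∈ (ℝ ∙ (((1 : S1) : ℂ)))ᗮ :=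
    Submodule.mem_orthogonal_singleton_iff_inner_right.2 h
  rw [← range_mvfderiv_subtypeVal (E := ℂ) (n := 1) (1 : S1)] at h1
  obtain ⟨v, hv⟩ := h1
  exact ⟨v, hv⟩

theorem exists_tangent3 {a : ℍ} (h : ⟪(1 : ℍ), a⟫ = 0) : ∃ v : EuclideanSpace ℝ (Fin 3),
    mvfderiv (𝓡 3) (fun a : S3 => (a : ℍ)) 1 v = a := by
  have h1 : a ∈ (ℝ ∙ (((1 : S3) : ℍ)))ᗮ :=
    Submodule.mem_orthogonal_singleton_iff_inner_right.2 h
  rw [← range_mvfderiv_subtypeVal (E := ℍ) (n := 3) (1 : S3)] at h1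
  obtain ⟨v, hv⟩ := h1
  exact ⟨v, hv⟩

/-- The orbit map has an injective differential at points outside the two singular orbits. -/
theorem inj_orbit {x : S7} (h1 : (ee (x : W)).1 ≠ 0) (h2 : (ee (x : W)).2 ≠ 0)
    (ξ : TangentSpace ((𝓡 1).prod (𝓡 3)) (1 : G))
    (h : mfderiv ((𝓡 1).prod (𝓡 3)) (𝓡 7) (fun g : G => g • x) 1 ξ = 0) : ξ = 0 := by
  have k := d_orbit x ξ
  rw [h, map_zero] at k
  have k2 := congrArg ee k.symm
  rw [map_zero, ee_Lx] at k2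
  have k3 : (ee (x : W)).2 * star (mvfderiv (𝓡 3) (fun b : S3 => (b : ℍ)) 1
      (ξ.2 : EuclideanSpace ℝ (Fin 3))) = 0 := congrArg Prod.snd k2
  have k4 := (mul_eq_zero.1 k3).resolve_left h2
  rw [star_eq_zero] at k4
  have k5 : cc (mvfderiv (𝓡 1) (fun a : S1 => (a : ℂ)) 1 (ξ.1 : EuclideanSpace ℝ (Fin 1))) *
      (ee (x : W)).1 + (ee (x : W)).1 * star (mvfderiv (𝓡 3) (fun b : S3 => (b : ℍ)) 1
      (ξ.2 : EuclideanSpace ℝ (Fin 3))) = 0 := congrArg Prod.fst k2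
  rw [k4, star_zero, mul_zero, add_zero] at k5
  have k6 := cc_inj ((mul_eq_zero.1 k5).resolve_right h1)
  have l1 : (ξ.1 : EuclideanSpace ℝ (Fin 1)) = 0 :=
    injective_mvfderiv_subtypeVal_sphere (E := ℂ) (n := 1) (1 : S1) (k6.trans (map_zero _).symm)
  have l2 : (ξ.2 : EuclideanSpace ℝ (Fin 3)) = 0 :=
    injective_mvfderiv_subtypeVal_sphere (E := ℍ) (n := 3) (1 : S3) (k4.trans (map_zero _).symm)
  exact Prod.ext l1 l2

theorem zero_of {x : S7} {ξ : TangentSpace ((𝓡 1).prod (𝓡 3)) (1 : G)}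
    (h : Lx (x : W) (mvfderiv (𝓡 1) (fun a : S1 => (a : ℂ)) 1 (ξ.1 : EuclideanSpace ℝ (Fin 1)),
      mvfderiv (𝓡 3) (fun b : S3 => (b : ℍ)) 1 (ξ.2 : EuclideanSpace ℝ (Fin 3))) = 0) :
    mfderiv ((𝓡 1).prod (𝓡 3)) (𝓡 7) (fun g : G => g • x) 1 ξ = 0 := by
  have k := d_orbit x ξ
  rw [h] at k
  exact injective_mvfderiv_subtypeVal_sphere (E := W) (n := 7) ((1 : G) • x)
    (k.trans (map_zero _).symm)

theorem zero1 : mvfderiv (𝓡 1) (fun a : S1 => (a : ℂ)) 1 (0 : EuclideanSpace ℝ (Fin 1)) =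
    (0 : ℂ) := map_zero (mvfderiv (𝓡 1) (fun a : S1 => (a : ℂ)) 1)

theorem zero3 : mvfderiv (𝓡 3) (fun a : S3 => (a : ℍ)) 1 (0 : EuclideanSpace ℝ (Fin 3)) =
    (0 : ℍ) := map_zero (mvfderiv (𝓡 3) (fun a : S3 => (a : ℍ)) 1)

theorem ker_pp : ∃ ξ : TangentSpace ((𝓡 1).prod (𝓡 3)) (1 : G), ξ ≠ 0 ∧
    mfderiv ((𝓡 1).prod (𝓡 3)) (𝓡 7) (fun g : G => g • pp) 1 ξ = 0 := by
  obtain ⟨v, hv⟩ := exists_tangent1 (a := Complex.I) (by simp [Complex.inner])
  obtain ⟨w, hw⟩ := exists_tangent3 (a := cc Complex.I) (by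
    rw [Quaternion.inner_def, cc_apply]
    simp)
  refine ⟨((v, w) : EuclideanSpace ℝ (Fin 1) × EuclideanSpace ℝ (Fin 3)), ?_, ?_⟩
  · intro h
    have h1 : v = 0 := congrArg Prod.fst h
    rw [h1] at hv
    exact Complex.I_ne_zero (hv.symm.trans zero1)
  · refine zero_of ?_
    change Lx (pp : W) (mvfderiv (𝓡 1) (fun a : S1 => (a : ℂ)) 1 v,
      mvfderiv (𝓡 3) (fun b : S3 => (b : ℍ)) 1 w) = 0
    rw [hv, hw]
    refine ee.injective ?_
    rw [ee_Lx, map_zero, pp, ee_mk]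
    have e : star (cc Complex.I) = - cc Complex.I := by
      rw [cc_apply]
      ext <;> simp
    rw [e]
    refine Prod.ext ?_ ?_
    · change cc Complex.I * 1 + 1 * -cc Complex.I = 0
      rw [mul_one, one_mul, add_neg_cancel]
    · change (0 : ℍ) * _ = 0
      rw [zero_mul]

theorem ker_qq : ∃ ξ : TangentSpace ((𝓡 1).prod (𝓡 3)) (1 : G), ξ ≠ 0 ∧
    mfderiv ((𝓡 1).prod (𝓡 3)) (𝓡 7) (fun g : G => g • qq) 1 ξ = 0 := by
  obtain ⟨v, hv⟩ := exists_tangent1 (a := Complex.I) (by simp [Complex.inner])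
  refine ⟨((v, 0) : EuclideanSpace ℝ (Fin 1) × EuclideanSpace ℝ (Fin 3)), ?_, ?_⟩
  · intro h
    have h1 : v = 0 := congrArg Prod.fst h
    rw [h1] at hv
    exact Complex.I_ne_zero (hv.symm.trans zero1)
  · refine zero_of ?_
    change Lx (qq : W) (mvfderiv (𝓡 1) (fun a : S1 => (a : ℂ)) 1 v,
      mvfderiv (𝓡 3) (fun b : S3 => (b : ℍ)) 1 (0 : EuclideanSpace ℝ (Fin 3))) = 0
    rw [hv, zero3]
    refine ee.injective ?_
    rw [ee_Lx, map_zero, qq, ee_mk]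
    refine Prod.ext ?_ ?_
    · change cc Complex.I * 0 + 0 * star 0 = 0
      rw [mul_zero, zero_mul, add_zero]
    · change (1 : ℍ) * star 0 = 0
      rw [star_zero, mul_zero]

theorem finrank_T : Module.finrank ℝ (TangentSpace ((𝓡 1).prod (𝓡 3)) (1 : G)) = 4 := by
  have h : Module.finrank ℝ (EuclideanSpace ℝ (Fin 1) × EuclideanSpace ℝ (Fin 3)) = 4 := by
    rw [Module.finrank_prod, finrank_euclideanSpace_fin, finrank_euclideanSpace_fin]
  exact h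

instance finT : FiniteDimensional ℝ (TangentSpace ((𝓡 1).prod (𝓡 3)) (1 : G)) :=
  inferInstanceAs (FiniteDimensional ℝ (EuclideanSpace ℝ (Fin 1) × EuclideanSpace ℝ (Fin 3)))

/-- The orbits through the points with both coordinates nonzero have dimension four. -/
theorem rank_four {x : S7} (h1 : (ee (x : W)).1 ≠ 0) (h2 : (ee (x : W)).2 ≠ 0) :
    Module.finrank ℝ (LinearMap.range (mfderiv ((𝓡 1).prod (𝓡 3)) (𝓡 7) (fun g : G => g • x)
      (1 : G)).toLinearMap) = 4 := by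
  have hi : Function.Injective (mfderiv ((𝓡 1).prod (𝓡 3)) (𝓡 7) (fun g : G => g • x)
      (1 : G)).toLinearMap := by
    rw [← LinearMap.ker_eq_bot, LinearMap.ker_eq_bot']
    intro ξ hξ
    exact inj_orbit h1 h2 ξ hξ
  rw [LinearMap.finrank_range_of_inj hi, finrank_T]

theorem rank_lt {x : S7} (h : ∃ ξ : TangentSpace ((𝓡 1).prod (𝓡 3)) (1 : G), ξ ≠ 0 ∧
    mfderiv ((𝓡 1).prod (𝓡 3)) (𝓡 7) (fun g : G => g • x) 1 ξ = 0) :
    Module.finrank ℝ (LinearMap.range (mfderiv ((𝓡 1).prod (𝓡 3)) (𝓡 7) (fun g : G => g • x)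
      (1 : G)).toLinearMap) < 4 := by
  obtain ⟨ξ, h0, hξ⟩ := h
  have h1 := LinearMap.finrank_range_add_finrank_ker (mfderiv ((𝓡 1).prod (𝓡 3)) (𝓡 7)
    (fun g : G => g • x) (1 : G)).toLinearMap
  rw [finrank_T] at h1
  have h2 : 0 < Module.finrank ℝ (LinearMap.ker (mfderiv ((𝓡 1).prod (𝓡 3)) (𝓡 7)
      (fun g : G => g • x) (1 : G)).toLinearMap) := by
    rw [Module.finrank_pos_iff_exists_ne_zero]
    refine ⟨⟨ξ, LinearMap.mem_ker.2 hξ⟩, fun h => h0 ?_⟩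
    exact congrArg Subtype.val h
  omega

/-- the action of `(a, b)` on `ℍ²` as a linear map -/
def ambL (a : ℂ) (b : ℍ) : W →ₗ[ℝ] W where
  toFun := amb a b
  map_add' x y := by
    refine ee.injective ?_
    rw [ee_amb, map_add, map_add, ee_amb, ee_amb]
    refine Prod.ext ?_ ?_
    · simp only [Prod.fst_add]
      rw [mul_add, add_mul]
    · simp only [Prod.snd_add]
      rw [add_mul]
  map_smul' r x := by
    refine ee.injective ?_
    rw [ee_amb, map_smul, RingHom.id_apply, map_smul, ee_amb]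
    refine Prod.ext ?_ ?_
    · simp only [Prod.smul_fst]
      rw [mul_smul_comm, smul_mul_assoc]
    · simp only [Prod.smul_snd]
      rw [smul_mul_assoc]

/-- the action of `g` on `ℍ²` as a linear isometry -/
def ambI (g : G) : W →ₗᵢ[ℝ] W where
  toLinearMap := ambL (g.1 : ℂ) (g.2 : ℍ)
  norm_map' x := norm_amb (norm_eq_of_mem_sphere g.1) (norm_eq_of_mem_sphere g.2) x

theorem d_act (g : G) (x : S7) (u : TangentSpace (𝓡 7) x) :
    mvfderiv (𝓡 7) (fun y : S7 => (y : W)) (g • x)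
      (mfderiv (𝓡 7) (𝓡 7) (fun y : S7 => g • y) x u) =
    ambI g (mvfderiv (𝓡 7) (fun y : S7 => (y : W)) x u) := by
  have hs : ContMDiff (𝓡 7) (𝓡 7) ∞ (fun y : S7 => g • y) :=
    ContMDiff.comp (g := fun z : G × S7 => z.1 • z.2) (f := fun y : S7 => (g, y)) smooth_act
      (contMDiff_const.prodMk contMDiff_id)
  have k1 : MDifferentiableAt (𝓡 7) (𝓡 7) (fun y : S7 => g • y) x :=
    hs.mdifferentiableAt (by simp)
  have k2 : MDifferentiableAt (𝓡 7) 𝓘(ℝ, W) (fun y : S7 => (y : W)) (g • x) :=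
    (contMDiff_coe_sphere (m := ∞)).mdifferentiableAt (by simp)
  have k3 := mfderiv_comp x k2 k1
  have k4 : MDifferentiableAt (𝓡 7) 𝓘(ℝ, W) (fun y : S7 => (y : W)) x :=
    (contMDiff_coe_sphere (m := ∞)).mdifferentiableAt (by simp)
  have e : (fun y : S7 => (y : W)) ∘ (fun y : S7 => g • y) =
      fun y : S7 => (ambI g).toContinuousLinearMap (y : W) := by
    funext y
    exact coe_smul g y
  rw [e] at k3
  have k5 := d_clm' (I := 𝓡 7) (M := S7) (ambI g).toContinuousLinearMap k4 u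
  refine Eq.trans ?_ k5
  exact (congrArg (fun L : EuclideanSpace ℝ (Fin 7) →L[ℝ] W => L u) k3).symm

end Pool.Agent.X214.S7
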