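import Pool.Agent.X214.S7.Path

/-!
The Lie group `S¹ × S³` of pairs of a unit complex number and a unit quaternion, and its action on
the unit sphere `S⁷` of `ℍ²` by `(w, h) (x, y) = (w x h⁻¹, y h⁻¹)`.
-/

open Bundle Manifold ContDiff ContinuousLinearMap Filter VectorField Metric
open scoped Topology RealInnerProductSpace Quaternion

set_option autoImplicit false
set_option synthInstance.maxHeartbeats 400000
set_option maxHeartbeats 4000000
set_option linter.unusedSectionVars false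

noncomputable section

namespace Pool.Agent.X214.S7

open Pool.Agent.H821R2 Pool.Agent.H821R3 Pool.Agent.H893R5.HO

instance factC : Fact (Module.finrank ℝ ℂ = 1 + 1) := ⟨Complex.finrank_real_complex⟩

instance factH : Fact (Module.finrank ℝ ℍ = 3 + 1) := ⟨Quaternion.finrank_eq_four⟩

/-- The unit complex numbers. -/
abbrev S1 : Type := sphere (0 : ℂ) 1

/-- The unit quaternions. -/
abbrev S3 : Type := sphere (0 : ℍ) 1

/-- The group `S¹ × S³`. -/
abbrev G : Type := S1 × S3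

/-- `ℍ²` with the Euclidean norm. -/
abbrev W : Type := WithLp 2 (ℍ × ℍ)

/-- The unit sphere of `ℍ²`. -/
abbrev S7 : Type := sphere (0 : W) 1

instance finW : FiniteDimensional ℝ W :=
  (WithLp.prodContinuousLinearEquiv 2 ℝ ℍ ℍ).symm.toLinearEquiv.finiteDimensional

instance factW : Fact (Module.finrank ℝ W = 7 + 1) := ⟨by
  have h := (WithLp.prodContinuousLinearEquiv 2 ℝ ℍ ℍ).toLinearEquiv.finrank_eq
  rw [h, Module.finrank_prod, Quaternion.finrank_eq_four]⟩

theorem contDiff_mulH : ContDiff ℝ ∞ (fun z : ℍ × ℍ => z.1 * z.2) := contDiff_fst.mul contDiff_snd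

/-- the conjugation as a linear map -/
def starH : ℍ →L[ℝ] ℍ := LinearMap.toContinuousLinearMap
  { toFun := star
    map_add' := star_add
    map_smul' := fun r q => Quaternion.star_smul r q }

theorem starH_apply (z : ℍ) : starH z = star z := rfl

theorem contDiff_star : ContDiff ℝ ∞ (fun z : ℍ => star z) := starH.contDiff

theorem coe_inv3 (h : S3) : ((h⁻¹ : S3) : ℍ) = star (h : ℍ) := by
  have h1 : ((h⁻¹ : S3) : ℍ) = (h : ℍ)⁻¹ := rfl
  rw [h1]
  refine inv_eq_of_mul_eq_one_right ?_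
  rw [Quaternion.self_mul_star, Quaternion.normSq_eq_norm_mul_self, norm_eq_of_mem_sphere h]
  norm_num

instance lie3 : LieGroup (𝓡 3) ∞ S3 where
  contMDiff_mul := by
    apply ContMDiff.codRestrict_sphere
    let c : S3 → ℍ := (↑)
    have h₂ : ContMDiff (𝓘(ℝ, ℍ).prod 𝓘(ℝ, ℍ)) 𝓘(ℝ, ℍ) ∞ fun z : ℍ × ℍ => z.fst * z.snd := by
      rw [contMDiff_iff]
      exact ⟨continuous_mul, fun x y => contDiff_mulH.contDiffOn⟩
    suffices h₁ : ContMDiff _ _ _ (Prod.map c c) from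
      h₂.comp h₁
    apply ContMDiff.prodMap <;> exact contMDiff_coe_sphere
  contMDiff_inv := by
    apply ContMDiff.codRestrict_sphere
    have e : (fun a : S3 => ((a : ℍ))⁻¹) = fun a : S3 => star (a : ℍ) := by
      funext a
      exact coe_inv3 a
    rw [e]
    exact contDiff_star.contMDiff.comp contMDiff_coe_sphere

instance lie1 : LieGroup (𝓡 1) ∞ S1 where
  contMDiff_mul := by
    apply ContMDiff.codRestrict_sphere
    let c : S1 → ℂ := (↑)
    have h₂ : ContMDiff (𝓘(ℝ, ℂ).prod 𝓘(ℝ, ℂ)) 𝓘(ℝ, ℂ) ∞ fun z : ℂ × ℂ => z.fst * z.snd := by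
      rw [contMDiff_iff]
      exact ⟨continuous_mul, fun x y => contDiff_mul.contDiffOn⟩
    suffices h₁ : ContMDiff _ _ _ (Prod.map c c) from
      h₂.comp h₁
    apply ContMDiff.prodMap <;> exact contMDiff_coe_sphere
  contMDiff_inv := by
    apply ContMDiff.codRestrict_sphere
    have e : (fun a : S1 => ((a : ℂ))⁻¹) = fun a : S1 => Complex.conjCLE (a : ℂ) := by
      funext a
      rw [Complex.inv_def, Complex.normSq_eq_norm_sq, norm_eq_of_mem_sphere a]
      simp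
    rw [e]
    exact Complex.conjCLE.contDiff.contMDiff.comp contMDiff_coe_sphere

example : LieGroup ((𝓡 1).prod (𝓡 3)) ∞ G := inferInstance

instance conn1 : ConnectedSpace S1 :=
  isConnected_iff_connectedSpace.1 (isConnected_sphere (by
    rw [← Module.finrank_eq_rank, Complex.finrank_real_complex]; norm_num) 0 zero_le_one)

instance conn3 : ConnectedSpace S3 :=
  isConnected_iff_connectedSpace.1 (isConnected_sphere (by
    rw [← Module.finrank_eq_rank, Quaternion.finrank_eq_four]; norm_num) 0 zero_le_one)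

instance conn7 : ConnectedSpace S7 :=
  isConnected_iff_connectedSpace.1 (isConnected_sphere (by
    rw [← Module.finrank_eq_rank, (factW).out]; norm_num) 0 zero_le_one)

/-- the coordinates of `ℍ²` -/
abbrev ee : W ≃L[ℝ] ℍ × ℍ := WithLp.prodContinuousLinearEquiv 2 ℝ ℍ ℍ

/-- the inclusion of the complex numbers in the quaternions -/
def cc : ℂ →L[ℝ] ℍ := LinearMap.toContinuousLinearMap (Quaternion.ofComplex).toLinearMap

theorem cc_apply (z : ℂ) : cc z = (z : ℍ) := rfl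

theorem norm_cc (z : ℂ) : ‖cc z‖ = ‖z‖ := by
  have h1 : ‖cc z‖ ^ 2 = ‖z‖ ^ 2 := by
    rw [cc_apply, ← real_inner_self_eq_norm_sq, Quaternion.inner_self, Quaternion.normSq_def',
      ← Complex.normSq_eq_norm_sq, Complex.normSq_apply]
    simp
    ring
  exact (sq_eq_sq₀ (norm_nonneg _) (norm_nonneg _)).1 h1

/-- the ambient action map -/
def amb (a : ℂ) (b : ℍ) (x : W) : W := ee.symm (cc a * (ee x).1 * star b, (ee x).2 * star b)

theorem ee_amb (a : ℂ) (b : ℍ) (x : W) :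
    ee (amb a b x) = (cc a * (ee x).1 * star b, (ee x).2 * star b) := ee.apply_symm_apply _

theorem norm_W (x : W) : ‖x‖ ^ 2 = ‖(ee x).1‖ ^ 2 + ‖(ee x).2‖ ^ 2 :=
  WithLp.prod_norm_sq_eq_of_L2 x

theorem norm_amb {a : ℂ} {b : ℍ} (ha : ‖a‖ = 1) (hb : ‖b‖ = 1) (x : W) : ‖amb a b x‖ = ‖x‖ := by
  have h1 : ‖amb a b x‖ ^ 2 = ‖x‖ ^ 2 := by
    rw [norm_W, norm_W, ee_amb]
    simp only [norm_mul, Quaternion.norm_star, norm_cc, ha, hb, one_mul, mul_one]
  exact (sq_eq_sq₀ (norm_nonneg _) (norm_nonneg _)).1 h1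

instance act : MulAction G S7 where
  smul g x := ⟨amb (g.1 : ℂ) (g.2 : ℍ) (x : W), by
    rw [mem_sphere_zero_iff_norm, norm_amb (norm_eq_of_mem_sphere g.1) (norm_eq_of_mem_sphere g.2)]
    exact norm_eq_of_mem_sphere x⟩
  one_smul x := by
    refine Subtype.ext ?_
    change amb 1 1 (x : W) = x
    refine ee.injective ?_
    rw [ee_amb, cc_apply]
    simp only [Quaternion.coeComplex_one, one_mul, star_one, mul_one]
  mul_smul g h x := by
    refine Subtype.ext ?_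
    change amb ((g.1 : ℂ) * h.1) ((g.2 : ℍ) * h.2) (x : W) =
      amb (g.1 : ℂ) (g.2 : ℍ) (amb (h.1 : ℂ) (h.2 : ℍ) (x : W))
    refine ee.injective ?_
    rw [ee_amb, ee_amb, ee_amb, cc_apply, cc_apply, cc_apply, star_mul, Quaternion.coeComplex_mul]
    simp only [mul_assoc]

theorem coe_smul (g : G) (x : S7) : ((g • x : S7) : W) = amb (g.1 : ℂ) (g.2 : ℍ) (x : W) := rfl

theorem contDiff_amb : ContDiff ℝ ∞ (fun z : (ℂ × ℍ) × W => amb z.1.1 z.1.2 z.2) := by
  have h1 : ContDiff ℝ ∞ (fun z : (ℂ × ℍ) × W => cc z.1.1) :=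
    cc.contDiff.comp (contDiff_fst.comp contDiff_fst)
  have h2 : ContDiff ℝ ∞ (fun z : (ℂ × ℍ) × W => star z.1.2) :=
    contDiff_star.comp (contDiff_snd.comp contDiff_fst)
  have h3 : ContDiff ℝ ∞ (fun z : (ℂ × ℍ) × W => (ee z.2).1) :=
    contDiff_fst.comp (ee.contDiff.comp contDiff_snd)
  have h4 : ContDiff ℝ ∞ (fun z : (ℂ × ℍ) × W => (ee z.2).2) :=
    contDiff_snd.comp (ee.contDiff.comp contDiff_snd)
  exact ee.symm.contDiff.comp (((h1.mul h3).mul h2).prodMk (h4.mul h2))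

/-- the inclusion of `G × S⁷` -/
def inc (z : G × S7) : (ℂ × ℍ) × W := (((z.1.1 : ℂ), (z.1.2 : ℍ)), (z.2 : W))

theorem smooth_inc : ContMDiff (((𝓡 1).prod (𝓡 3)).prod (𝓡 7)) 𝓘(ℝ, (ℂ × ℍ) × W) ∞ inc := by
  have h1 : ContMDiff (((𝓡 1).prod (𝓡 3)).prod (𝓡 7)) 𝓘(ℝ, ℂ) ∞
      (fun z : G × S7 => (z.1.1 : ℂ)) :=
    (contMDiff_coe_sphere (m := ∞) (E := ℂ) (n := 1)).comp (contMDiff_fst.comp contMDiff_fst)
  have h2 : ContMDiff (((𝓡 1).prod (𝓡 3)).prod (𝓡 7)) 𝓘(ℝ, ℍ) ∞
      (fun z : G × S7 => (z.1.2 : ℍ)) :=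
    (contMDiff_coe_sphere (m := ∞) (E := ℍ) (n := 3)).comp (contMDiff_snd.comp contMDiff_fst)
  have h3 : ContMDiff (((𝓡 1).prod (𝓡 3)).prod (𝓡 7)) 𝓘(ℝ, W) ∞
      (fun z : G × S7 => (z.2 : W)) :=
    (contMDiff_coe_sphere (m := ∞) (E := W) (n := 7)).comp contMDiff_snd
  exact (h1.prodMk_space h2).prodMk_space h3

/-- the ambient action map on `ℂ × ℍ × W` -/
def ambF (z : (ℂ × ℍ) × W) : W := amb z.1.1 z.1.2 z.2

theorem smooth_amb_inc : ContMDiff (((𝓡 1).prod (𝓡 3)).prod (𝓡 7)) 𝓘(ℝ, W) ∞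
    (fun z : G × S7 => ambF (inc z)) :=
  ContMDiff.comp (g := ambF) (contDiff_amb.contMDiff) smooth_inc

theorem smooth_act : ContMDiff (((𝓡 1).prod (𝓡 3)).prod (𝓡 7)) (𝓡 7) ∞
    (fun z : G × S7 => z.1 • z.2) := by
  have h : ∀ z : G × S7, ambF (inc z) ∈ sphere (0 : W) 1 := fun z => (z.1 • z.2 : S7).2
  exact ContMDiff.codRestrict_sphere smooth_amb_inc h

end Pool.Agent.X214.S7
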