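import Pool.Agent.X214.S7.Group

/-!
Orbits, isotropy groups and dimensions of the orbits of the action of `S¹ × S³` on `S⁷`.
-/

open Bundle Manifold ContDiff ContinuousLinearMap Filter VectorField Metric
open scoped Topology RealInnerProductSpace Quaternion

set_option autoImplicit false
set_option synthInstance.maxHeartbeats 400000
set_option maxHeartbeats 4000000
set_option linter.unusedSectionVars false

noncomputable section

namespace Pool.Agent.X214.S7

open Pool.Agent.H821R2 Pool.Agent.H821R3 Pool.Agent.H893R5.HO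

theorem ee_smul (g : G) (x : S7) : ee ((g • x : S7) : W) =
    (cc (g.1 : ℂ) * (ee (x : W)).1 * star (g.2 : ℍ), (ee (x : W)).2 * star (g.2 : ℍ)) := by
  rw [coe_smul, ee_amb]

theorem ext7 {x y : S7} (h1 : (ee (x : W)).1 = (ee (y : W)).1)
    (h2 : (ee (x : W)).2 = (ee (y : W)).2) : x = y :=
  Subtype.ext (ee.injective (Prod.ext h1 h2))

theorem smul_eq_iff (g : G) (x y : S7) : g • x = y ↔
    cc (g.1 : ℂ) * (ee (x : W)).1 * star (g.2 : ℍ) = (ee (y : W)).1 ∧
      (ee (x : W)).2 * star (g.2 : ℍ) = (ee (y : W)).2 := by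
  constructor
  · intro h
    rw [← h, ee_smul]
    exact ⟨rfl, rfl⟩
  · rintro ⟨h1, h2⟩
    refine ext7 ?_ ?_
    · rw [ee_smul]; exact h1
    · rw [ee_smul]; exact h2

theorem cc_inj {a : ℂ} (h : cc a = 0) : a = 0 := by
  rw [← norm_eq_zero, norm_cc, norm_eq_zero] at h
  exact h

theorem free {x : S7} (h1 : (ee (x : W)).1 ≠ 0) (h2 : (ee (x : W)).2 ≠ 0) {g : G}
    (hg : g • x = x) : g = 1 := by
  obtain ⟨k1, k2⟩ := (smul_eq_iff g x x).1 hg
  have e2 : star (g.2 : ℍ) = 1 := by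
    refine mul_left_cancel₀ h2 ?_
    rw [k2, mul_one]
  have e3 : (g.2 : ℍ) = 1 := by rw [← star_star (g.2 : ℍ), e2, star_one]
  rw [e2, mul_one] at k1
  have e4 : cc (g.1 : ℂ) = 1 := by
    refine mul_right_cancel₀ h1 ?_
    rw [k1, one_mul]
  have e5 : cc ((g.1 : ℂ) - 1) = 0 := by
    rw [map_sub, e4]
    change (1 : ℍ) - ((1 : ℂ) : ℍ) = 0
    simp
  have e6 : (g.1 : ℂ) = 1 := sub_eq_zero.1 (cc_inj e5)
  exact Prod.ext (Subtype.ext e6) (Subtype.ext e3)

theorem mk_mem {a b : ℍ} (h : ‖a‖ ^ 2 + ‖b‖ ^ 2 = 1) : ee.symm (a, b) ∈ sphere (0 : W) 1 := by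
  rw [mem_sphere_zero_iff_norm]
  have h1 : ‖ee.symm (a, b)‖ ^ 2 = 1 := by
    rw [norm_W, ee.apply_symm_apply]
    exact h
  nlinarith [norm_nonneg (ee.symm (a, b))]

/-- the point `(a, b)` -/
def mk (a b : ℍ) (h : ‖a‖ ^ 2 + ‖b‖ ^ 2 = 1) : S7 := ⟨ee.symm (a, b), mk_mem h⟩

theorem ee_mk (a b : ℍ) (h : ‖a‖ ^ 2 + ‖b‖ ^ 2 = 1) : ee (mk a b h : W) = (a, b) :=
  ee.apply_symm_apply _

/-- the point `(1, 0)` -/
def pp : S7 := mk 1 0 (by simp)

/-- the point `(0, 1)` -/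
def qq : S7 := mk 0 1 (by simp)

/-- the point `(3/5, 4/5)` -/
def rr : S7 := mk ((3 / 5 : ℝ) : ℍ) ((4 / 5 : ℝ) : ℍ) (by
  rw [Quaternion.norm_coe, Quaternion.norm_coe, Real.norm_eq_abs, Real.norm_eq_abs, sq_abs, sq_abs]
  norm_num)

theorem rr_free {g : G} (hg : g • rr = rr) : g = 1 := by
  refine free ?_ ?_ hg
  · rw [rr, ee_mk]
    intro h
    have h1 : (3 / 5 : ℝ) = 0 := congrArg (fun q : ℍ => q.re) h
    norm_num at h1
  · rw [rr, ee_mk]
    intro h
    have h1 : (4 / 5 : ℝ) = 0 := congrArg (fun q : ℍ => q.re) h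
    norm_num at h1

theorem norm_one (x : S7) : ‖(ee (x : W)).1‖ ^ 2 + ‖(ee (x : W)).2‖ ^ 2 = 1 := by
  rw [← norm_W, norm_eq_of_mem_sphere x]
  norm_num

theorem mem_orbit_pp (x : S7) : x ∈ MulAction.orbit G pp ↔ (ee (x : W)).2 = 0 := by
  constructor
  · rintro ⟨g, hg⟩
    have h := ((smul_eq_iff g pp x).1 hg).2
    rw [← h, pp, ee_mk, zero_mul]
  · intro h
    have h1 : ‖(ee (x : W)).1‖ = 1 := by
      have := norm_one x
      rw [h, norm_zero] at this
      nlinarith [norm_nonneg (ee (x : W)).1]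
    refine ⟨(1, ⟨star (ee (x : W)).1, by
      rw [mem_sphere_zero_iff_norm, Quaternion.norm_star]; exact h1⟩), ?_⟩
    refine (smul_eq_iff _ pp x).2 ⟨?_, ?_⟩
    · rw [pp, ee_mk]
      change cc 1 * 1 * star (star (ee (x : W)).1) = _
      rw [star_star, cc_apply]
      simp
    · rw [pp, ee_mk, h, zero_mul]

theorem mem_orbit_qq (x : S7) : x ∈ MulAction.orbit G qq ↔ (ee (x : W)).1 = 0 := by
  constructor
  · rintro ⟨g, hg⟩
    have h := ((smul_eq_iff g qq x).1 hg).1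
    rw [← h, qq, ee_mk, mul_zero, zero_mul]
  · intro h
    have h1 : ‖(ee (x : W)).2‖ = 1 := by
      have := norm_one x
      rw [h, norm_zero] at this
      nlinarith [norm_nonneg (ee (x : W)).2]
    refine ⟨(1, ⟨star (ee (x : W)).2, by
      rw [mem_sphere_zero_iff_norm, Quaternion.norm_star]; exact h1⟩), ?_⟩
    refine (smul_eq_iff _ qq x).2 ⟨?_, ?_⟩
    · rw [qq, ee_mk, h, mul_zero, zero_mul]
    · rw [qq, ee_mk]
      change 1 * star (star (ee (x : W)).2) = _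
      rw [star_star, one_mul]

/-- the element `(-1, -1)` -/
def mm : G := (-1, -1)

/-- the element `(-1, 1)` -/
def mo : G := (-1, 1)

theorem mm_ne : mm ≠ 1 := by
  intro h
  have h1 : (-1 : ℂ) = 1 := congrArg (fun g : G => (g.1 : ℂ)) h
  norm_num at h1

theorem mo_ne : mo ≠ 1 := by
  intro h
  have h1 : (-1 : ℂ) = 1 := congrArg (fun g : G => (g.1 : ℂ)) h
  norm_num at h1

theorem mm_smul {x : S7} (h : (ee (x : W)).2 = 0) : mm • x = x := by
  refine (smul_eq_iff _ x x).2 ⟨?_, ?_⟩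
  · change cc (-1) * (ee (x : W)).1 * star (-1) = _
    rw [star_neg, star_one, map_neg, cc_apply]
    simp
  · rw [h, zero_mul]

theorem mo_smul {x : S7} (h : (ee (x : W)).1 = 0) : mo • x = x := by
  refine (smul_eq_iff _ x x).2 ⟨?_, ?_⟩
  · rw [h, mul_zero, zero_mul]
  · change (ee (x : W)).2 * star 1 = _
    rw [star_one, mul_one]

/-- `(-1, -1)` is central and does not fix `(0, 1)`. -/
theorem mm_conj (g : G) : g * mm * g⁻¹ = mm := by
  have h : g * mm = mm * g := by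
    refine Prod.ext (Subtype.ext ?_) (Subtype.ext ?_)
    · change (g.1 : ℂ) * -1 = -1 * (g.1 : ℂ)
      ring
    · change (g.2 : ℍ) * -1 = -1 * (g.2 : ℍ)
      simp
  rw [h, mul_assoc, mul_inv_cancel, mul_one]

theorem mm_qq : mm • qq ≠ qq := by
  intro h
  have h1 := ((smul_eq_iff _ _ _).1 h).2
  rw [qq, ee_mk] at h1
  have h2 : (1 : ℍ) * star (-1 : ℍ) = 1 := h1
  have h3 := congrArg (fun q : ℍ => q.re) h2
  simp at h3
  norm_num at h3

end Pool.Agent.X214.S7
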