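import Pool.Agent.X214.S7.Round

/-!
Great circles in the round metrics.
-/

open Bundle Manifold ContDiff ContinuousLinearMap Filter VectorField Metric
open scoped Topology RealInnerProductSpace

set_option autoImplicit false
set_option synthInstance.maxHeartbeats 400000
set_option maxHeartbeats 4000000
set_option linter.unusedSectionVars false

noncomputable section

namespace Pool.Agent.X214.S7

open Pool.Agent.H821R2 Pool.Agent.H821R3 Pool.Agent.H893R5.HO

/-- The length of the path `γ`, `0 ≤ t ≤ 1`, for the Riemannian metric `g`. -/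
def length {E : Type*} [NormedAddCommGroup E] [NormedSpace ℝ E]
    {H : Type*} [TopologicalSpace H] {I : ModelWithCorners ℝ E H}
    {M : Type*} [TopologicalSpace M] [ChartedSpace H M] [IsManifold I ∞ M]
    (g : ContMDiffRiemannianMetric I ∞ E (fun x : M => TangentSpace I x)) (γ : ℝ → M) : ℝ :=
  ∫ t in (0 : ℝ)..1, Real.sqrt
    (g.inner (γ t) (mfderiv 𝓘(ℝ, ℝ) I γ t (1 : ℝ)) (mfderiv 𝓘(ℝ, ℝ) I γ t (1 : ℝ)))

variable {n : ℕ} {V : Type*} [NormedAddCommGroup V] [InnerProductSpace ℝ V]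
  [Fact (Module.finrank ℝ V = n + 1)] [FiniteDimensional ℝ V]

theorem exists_unit_orth [NeZero n] (x : sphere (0 : V) 1) : ∃ u : V, ‖u‖ = 1 ∧ ⟪(x : V), u⟫ = 0 := by
  have hx : (x : V) ≠ 0 := by
    intro h
    have := norm_eq_of_mem_sphere x
    rw [h, norm_zero] at this
    exact zero_ne_one this
  have h1 : Module.finrank ℝ (ℝ ∙ (x : V))ᗮ = n := Submodule.finrank_orthogonal_span_singleton hx
  have h2 : 0 < Module.finrank ℝ (ℝ ∙ (x : V))ᗮ := by
    rw [h1]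
    exact Nat.pos_of_ne_zero (NeZero.ne n)
  obtain ⟨⟨w, hw⟩, hw0⟩ := Module.finrank_pos_iff_exists_ne_zero.1 h2
  have hw1 : w ≠ 0 := fun h => hw0 (Subtype.ext h)
  refine ⟨‖w‖⁻¹ • w, ?_, ?_⟩
  · rw [norm_smul, norm_inv, norm_norm, inv_mul_cancel₀ (norm_ne_zero_iff.2 hw1)]
  · rw [real_inner_smul_right, Submodule.mem_orthogonal_singleton_iff_inner_right.1 hw, mul_zero]

theorem exists_angle [NeZero n] (x y : sphere (0 : V) 1) : ∃ (u : V) (θ : ℝ), ‖u‖ = 1 ∧
    ⟪(x : V), u⟫ = 0 ∧ 0 ≤ θ ∧ θ ≤ Real.pi ∧ (y : V) = Real.cos θ • (x : V) + Real.sin θ • u := by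
  have hx : ‖(x : V)‖ = 1 := norm_eq_of_mem_sphere x
  have hy : ‖(y : V)‖ = 1 := norm_eq_of_mem_sphere y
  obtain ⟨s, hs⟩ : ∃ s, s = ⟪(x : V), (y : V)⟫ := ⟨_, rfl⟩
  obtain ⟨w, hw⟩ : ∃ w, w = (y : V) - s • (x : V) := ⟨_, rfl⟩
  have hxw : ⟪(x : V), w⟫ = 0 := by
    rw [hw, inner_sub_right, real_inner_smul_right, ← hs, real_inner_self_eq_norm_sq, hx]
    ring
  have hww : ‖w‖ ^ 2 = 1 - s ^ 2 := by
    rw [← real_inner_self_eq_norm_sq, hw, inner_sub_left, inner_sub_right, inner_sub_right,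
      real_inner_smul_left, real_inner_smul_left, real_inner_smul_right, real_inner_smul_right,
      real_inner_self_eq_norm_sq, real_inner_self_eq_norm_sq, hx, hy,
      real_inner_comm (x : V) (y : V), ← hs]
    ring
  have hs1 : s ^ 2 ≤ 1 := by nlinarith [sq_nonneg ‖w‖]
  have hs2 : -1 ≤ s := by nlinarith
  have hs3 : s ≤ 1 := by nlinarith
  have hcos : Real.cos (Real.arccos s) = s := Real.cos_arccos hs2 hs3
  have hsin : Real.sin (Real.arccos s) = ‖w‖ := by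
    rw [Real.sin_arccos, ← hww, Real.sqrt_sq (norm_nonneg w)]
  have hyw : (y : V) = s • (x : V) + w := by rw [hw]; abel
  by_cases h0 : w = 0
  · obtain ⟨u, hu, hxu⟩ := exists_unit_orth (n := n) x
    refine ⟨u, Real.arccos s, hu, hxu, Real.arccos_nonneg s, Real.arccos_le_pi s, ?_⟩
    rw [hcos, hsin, h0, norm_zero, zero_smul]
    rw [h0] at hyw
    exact hyw
  · refine ⟨‖w‖⁻¹ • w, Real.arccos s, ?_, ?_, Real.arccos_nonneg s, Real.arccos_le_pi s, ?_⟩
    · rw [norm_smul, norm_inv, norm_norm, inv_mul_cancel₀ (norm_ne_zero_iff.2 h0)]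
    · rw [real_inner_smul_right, hxw, mul_zero]
    · rw [hcos, hsin, smul_smul, mul_inv_cancel₀ (norm_ne_zero_iff.2 h0), one_smul]
      exact hyw

theorem norm_circle {x u : V} (hx : ‖x‖ = 1) (hu : ‖u‖ = 1) (h : ⟪x, u⟫ = 0) (a b : ℝ) :
    ‖a • x + b • u‖ ^ 2 = a ^ 2 + b ^ 2 := by
  rw [← real_inner_self_eq_norm_sq, inner_add_left, inner_add_right, inner_add_right,
    real_inner_smul_left, real_inner_smul_left, real_inner_smul_left, real_inner_smul_left,
    real_inner_smul_right, real_inner_smul_right, real_inner_smul_right, real_inner_smul_right,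
    real_inner_self_eq_norm_sq, real_inner_self_eq_norm_sq, hx, hu, real_inner_comm x u, h]
  ring

theorem exists_path [NeZero n] {c : ℝ} (hc : 0 < c)
    (g : ContMDiffRiemannianMetric (𝓡 n) ∞ (EuclideanSpace ℝ (Fin n))
        (fun x : sphere (0 : V) 1 => TangentSpace (𝓡 n) x))
    (hg : ∀ (p : sphere (0 : V) 1) (u v : TangentSpace (𝓡 n) p), g.inner p u v = c⁻¹ *
        ⟪mvfderiv (𝓡 n) (fun x : sphere (0 : V) 1 => (x : V)) p u,
          mvfderiv (𝓡 n) (fun x : sphere (0 : V) 1 => (x : V)) p v⟫)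
    (x y : sphere (0 : V) 1) :
    ∃ γ : ℝ → sphere (0 : V) 1, ContMDiff 𝓘(ℝ, ℝ) (𝓡 n) ∞ γ ∧ γ 0 = x ∧ γ 1 = y ∧
      length g γ ≤ Real.pi * Real.sqrt c⁻¹ := by
  obtain ⟨u, θ, hu, hxu, h0, hpi, hy⟩ := exists_angle (n := n) x y
  have hx : ‖(x : V)‖ = 1 := norm_eq_of_mem_sphere x
  obtain ⟨f, hf⟩ : ∃ f : ℝ → V, f = fun t => Real.cos (θ * t) • (x : V) + Real.sin (θ * t) • u :=
    ⟨_, rfl⟩
  have hfn : ∀ t, ‖f t‖ = 1 := by
    intro t
    have h1 : ‖f t‖ ^ 2 = 1 := by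
      rw [hf]
      simp only
      rw [norm_circle hx hu hxu, Real.cos_sq_add_sin_sq]
    nlinarith [norm_nonneg (f t)]
  have hfm : ∀ t, f t ∈ sphere (0 : V) 1 := fun t => by
    rw [mem_sphere_zero_iff_norm]
    exact hfn t
  have hfs : ContDiff ℝ ∞ f := by
    rw [hf]
    exact ((Real.contDiff_cos.comp (contDiff_const.mul contDiff_id)).smul contDiff_const).add
      ((Real.contDiff_sin.comp (contDiff_const.mul contDiff_id)).smul contDiff_const)
  have hγs : ContMDiff 𝓘(ℝ, ℝ) (𝓡 n) ∞ (fun t => (⟨f t, hfm t⟩ : sphere (0 : V) 1)) :=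
    ContMDiff.codRestrict_sphere hfs.contMDiff hfm
  refine ⟨fun t => ⟨f t, hfm t⟩, hγs, ?_, ?_, ?_⟩
  · refine Subtype.ext ?_
    change f 0 = (x : V)
    rw [hf]
    simp
  · refine Subtype.ext ?_
    change f 1 = (y : V)
    rw [hf]
    simp only [mul_one]
    exact hy.symm
  · have hder : ∀ t, HasDerivAt f (θ • (-Real.sin (θ * t) • (x : V) + Real.cos (θ * t) • u)) t := by
      intro t
      have h1 : HasDerivAt (fun t : ℝ => θ * t) θ t := by
        simpa using (hasDerivAt_id t).const_mul θ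
      have h2 := (h1.cos.smul_const (x : V)).add (h1.sin.smul_const u)
      rw [hf]
      refine h2.congr_deriv ?_
      rw [smul_add, smul_smul, smul_smul]
      congr 2 <;> ring
    have key : ∀ t, Real.sqrt (g.inner (⟨f t, hfm t⟩ : sphere (0 : V) 1)
        (mfderiv 𝓘(ℝ, ℝ) (𝓡 n) (fun t => (⟨f t, hfm t⟩ : sphere (0 : V) 1)) t (1 : ℝ))
        (mfderiv 𝓘(ℝ, ℝ) (𝓡 n) (fun t => (⟨f t, hfm t⟩ : sphere (0 : V) 1)) t (1 : ℝ))) =
        θ * Real.sqrt c⁻¹ := by
      intro t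
      have k0 : MDifferentiableAt (𝓡 n) 𝓘(ℝ, V) (fun x : sphere (0 : V) 1 => (x : V))
          (⟨f t, hfm t⟩ : sphere (0 : V) 1) :=
        (contMDiff_coe_sphere (m := ∞)).mdifferentiableAt (by simp)
      have k1 : MDifferentiableAt 𝓘(ℝ, ℝ) (𝓡 n) (fun t => (⟨f t, hfm t⟩ : sphere (0 : V) 1)) t :=
        hγs.mdifferentiableAt (by simp)
      have k2 := mfderiv_comp t k0 k1
      have k3 : mfderiv 𝓘(ℝ, ℝ) 𝓘(ℝ, V) ((fun x : sphere (0 : V) 1 => (x : V)) ∘
          fun t => (⟨f t, hfm t⟩ : sphere (0 : V) 1)) t = fderiv ℝ f t := mfderiv_eq_fderiv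
      rw [k3] at k2
      have k4 : mvfderiv (𝓡 n) (fun x : sphere (0 : V) 1 => (x : V)) (⟨f t, hfm t⟩ : sphere (0 : V) 1)
          (mfderiv 𝓘(ℝ, ℝ) (𝓡 n) (fun t => (⟨f t, hfm t⟩ : sphere (0 : V) 1)) t (1 : ℝ)) =
          θ • (-Real.sin (θ * t) • (x : V) + Real.cos (θ * t) • u) := by
        have k5 : (fderiv ℝ f t) (1 : ℝ) =
            θ • (-Real.sin (θ * t) • (x : V) + Real.cos (θ * t) • u) := by
          rw [fderiv_apply_one_eq_deriv]
          exact (hder t).deriv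
        rw [← k5]
        exact (congrArg (fun L : ℝ →L[ℝ] V => L 1) k2).symm
      rw [hg, k4, real_inner_self_eq_norm_sq, norm_smul, mul_pow, norm_circle hx hu hxu]
      have k6 : (-Real.sin (θ * t)) ^ 2 + Real.cos (θ * t) ^ 2 = 1 := by
        rw [neg_sq, Real.sin_sq_add_cos_sq]
      rw [k6, mul_one, Real.norm_eq_abs, sq_abs, Real.sqrt_mul (inv_nonneg.2 hc.le),
        Real.sqrt_sq h0, mul_comm]
    rw [length]
    simp only [key]
    rw [intervalIntegral.integral_const]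
    simp only [sub_zero, one_smul]
    exact mul_le_mul_of_nonneg_right hpi (Real.sqrt_nonneg _)

/-- **The spheres admit metrics of positive curvature and of diameter at most one.** -/
theorem exists_small [NeZero n] :
    ∃ (g : ContMDiffRiemannianMetric (𝓡 n) ∞ (EuclideanSpace ℝ (Fin n))
        (fun x : sphere (0 : V) 1 => TangentSpace (𝓡 n) x))
      (cov : CovariantDerivative (𝓡 n) (EuclideanSpace ℝ (Fin n))
        (TangentSpace (𝓡 n) : sphere (0 : V) 1 → Type _))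
      (R : CurvField (𝓡 n) (sphere (0 : V) 1)),
      IsLeviCivita g cov ∧ IsRiemannTensor cov R ∧
      (∀ (p : sphere (0 : V) 1) (u v : TangentSpace (𝓡 n) p), g.inner p u v = (16 : ℝ)⁻¹ *
        ⟪mvfderiv (𝓡 n) (fun x : sphere (0 : V) 1 => (x : V)) p u,
          mvfderiv (𝓡 n) (fun x : sphere (0 : V) 1 => (x : V)) p v⟫) ∧
      (∀ (p : sphere (0 : V) 1) (u v : TangentSpace (𝓡 n) p),
        OrthoPair g p u v → 0 < sec g R p u v) ∧
      ∀ x y : sphere (0 : V) 1, ∃ γ : ℝ → sphere (0 : V) 1, ContMDiff 𝓘(ℝ, ℝ) (𝓡 n) ∞ γ ∧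
        γ 0 = x ∧ γ 1 = y ∧ length g γ ≤ 1 := by
  obtain ⟨g, cov, R, h1, h2, h3, h4⟩ := exists_round (n := n) (V := V) (c := 16) (by norm_num)
  refine ⟨g, cov, R, h1, h2, h3, h4, fun x y => ?_⟩
  obtain ⟨γ, k1, k2, k3, k4⟩ := exists_path (c := 16) (by norm_num) g h3 x y
  refine ⟨γ, k1, k2, k3, k4.trans ?_⟩
  have e : Real.sqrt (16 : ℝ)⁻¹ = 1 / 4 := by
    rw [show (16 : ℝ)⁻¹ = (1 / 4) ^ 2 by norm_num, Real.sqrt_sq (by norm_num)]
  rw [e]
  have := Real.pi_lt_four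
  linarith

end Pool.Agent.X214.S7
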