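import Pool.Agent.H893R5.HO.SphEmb

/-!
Round metrics on the unit sphere of a Euclidean space: positive curvature and lengths of great circles.
-/

open Bundle Manifold ContDiff ContinuousLinearMap Filter VectorField Metric
open scoped Topology RealInnerProductSpace

set_option autoImplicit false
set_option synthInstance.maxHeartbeats 400000
set_option maxHeartbeats 4000000
set_option linter.unusedSectionVars false

noncomputable section

namespace Pool.Agent.X214.S7

open Pool.Agent.H821R2 Pool.Agent.H821R3 Pool.Agent.H893R5.HO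

variable {n : ℕ} {V : Type*} [NormedAddCommGroup V] [InnerProductSpace ℝ V]
  [Fact (Module.finrank ℝ V = n + 1)]

/-- the projection to the normal line -/
def oN (z : V) : V →L[ℝ] V := (innerSL ℝ z).smulRight z

theorem oN_apply (z a : V) : oN z a = ⟪z, a⟫ • z := by simp [oN]

theorem smooth_oN : ContDiff ℝ ∞ (oN (V := V)) :=
  (innerSL ℝ (E := V)).contDiff.smulRight contDiff_id

theorem oN_symm (z a b : V) : ⟪oN z a, b⟫ = ⟪a, oN z b⟫ := by
  rw [oN_apply, oN_apply, real_inner_smul_left, real_inner_smul_right, real_inner_comm a z]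
  ring

theorem d_coe_orth (p : sphere (0 : V) 1) (v : TangentSpace (𝓡 n) p) :
    ⟪(p : V), mvfderiv (𝓡 n) (fun x : sphere (0 : V) 1 => (x : V)) p v⟫ = 0 := by
  have h : mvfderiv (𝓡 n) (fun x : sphere (0 : V) 1 => (x : V)) p v ∈ (ℝ ∙ (p : V))ᗮ := by
    rw [← range_mvfderiv_subtypeVal (E := V) (n := n) p]
    exact ⟨_, rfl⟩
  exact Submodule.mem_orthogonal_singleton_iff_inner_right.1 h

variable (n V) in
/-- The unit sphere as an immersed manifold. -/
def sph1 [FiniteDimensional ℝ V] : Emb (𝓡 n) (sphere (0 : V) 1) V where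
  B := innerSL ℝ
  Bsymm a b := real_inner_comm _ _
  Bpos a ha := real_inner_self_pos.2 ha
  j := fun x => (x : V)
  hj := contMDiff_coe_sphere (m := ∞) (E := V) (n := n)
  inj p v h := injective_mvfderiv_subtypeVal_sphere (E := V) (n := n) p (h.trans (map_zero _).symm)
  P z := ContinuousLinearMap.id ℝ _ - oN z
  hP := contDiff_const.sub smooth_oN
  Psymm p a b := by
    change ⟪a - oN (p : V) a, b⟫ = ⟪a, b - oN (p : V) b⟫
    rw [inner_sub_left, inner_sub_right, oN_symm]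
  Pd p v := by
    change mvfderiv (𝓡 n) (fun x : sphere (0 : V) 1 => (x : V)) p v - oN (p : V) _ = _
    rw [oN_apply, d_coe_orth, zero_smul, sub_zero]
  rng p a := by
    have h1 : a - ⟪(p : V), a⟫ • (p : V) ∈ (ℝ ∙ (p : V))ᗮ :=
      Submodule.mem_orthogonal_singleton_iff_inner_right.2 (by
        rw [inner_sub_right, real_inner_smul_right, inner_self_sph]
        ring)
    rw [← range_mvfderiv_subtypeVal (E := V) (n := n) p] at h1
    obtain ⟨v, hv⟩ := h1
    refine ⟨v, ?_⟩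
    refine hv.trans ?_
    change _ = a - oN (p : V) a
    rw [oN_apply]

section

variable [FiniteDimensional ℝ V]

variable (V) in
/-- the cometric of the round metric of curvature `c` -/
def Wc (c : ℝ) (z : V) : V →L[ℝ] V := c • (ContinuousLinearMap.id ℝ V - oN z)

theorem Wc_apply (c : ℝ) (z a : V) : Wc V c z a = c • (a - ⟪z, a⟫ • z) := by
  simp [Wc, oN_apply]

theorem com_Wc {c : ℝ} (hc : 0 < c) : (sph1 n V).Com (Wc V c) where
  smooth := by
    have h : ContDiff ℝ ∞ (fun z : V => c • (ContinuousLinearMap.id ℝ V - oN z)) :=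
      ContDiff.const_smul c (contDiff_const.sub smooth_oN)
    exact h
  symm z a b := by
    change ⟪Wc V c z a, b⟫ = ⟪a, Wc V c z b⟫
    rw [Wc_apply, Wc_apply, real_inner_smul_left, real_inner_smul_right, inner_sub_left,
      inner_sub_right, real_inner_smul_left, real_inner_smul_right, real_inner_comm a z]
    ring
  tan p a := by
    change Wc V c (p : V) a - oN (p : V) (Wc V c (p : V) a) = Wc V c (p : V) a
    rw [oN_apply, Wc_apply, real_inner_smul_right, inner_sub_right, real_inner_smul_right,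
      inner_self_sph]
    simp
  pos p a ha ha0 := by
    have h1 : a - oN (p : V) a = a := ha
    change 0 < ⟪a, Wc V c (p : V) a⟫
    rw [Wc_apply, ← oN_apply, h1, real_inner_smul_right]
    exact mul_pos hc (real_inner_self_pos.2 ha0)

theorem FF_eq (c : ℝ) (a b : V) : (sph1 n V).FF (Wc V c) a b =
    fun z => c * (⟪a, b⟫ - ⟪z, a⟫ * ⟪z, b⟫) := by
  funext z
  change ⟪a, Wc V c z b⟫ = _
  rw [Wc_apply, real_inner_smul_right, inner_sub_right, real_inner_smul_right, real_inner_comm a z]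
  ring

theorem hasF (a z : V) : HasFDerivAt (fun z : V => ⟪z, a⟫) (innerSL ℝ a) z := by
  have h := (innerSL ℝ a).hasFDerivAt (x := z)
  refine h.congr_of_eventuallyEq (Eventually.of_forall fun y => ?_)
  exact real_inner_comm _ _

theorem fd_FF (c : ℝ) (a b z v : V) : fderiv ℝ ((sph1 n V).FF (Wc V c) a b) z v =
    -c * (⟪v, a⟫ * ⟪z, b⟫ + ⟪z, a⟫ * ⟪v, b⟫) := by
  rw [FF_eq]
  have h := (((hasF a z).mul (hasF b z)).const_sub ⟪a, b⟫).const_mul c
  refine (DFunLike.congr_fun h.fderiv v).trans ?_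
  simp only [smul_apply, neg_apply, add_apply, innerSL_apply_apply, smul_eq_mul]
  rw [real_inner_comm v a, real_inner_comm v b]
  ring

theorem dir_FF (c : ℝ) (a b d : V) : Emb.Dir (Wc V c) d ((sph1 n V).FF (Wc V c) a b) =
    fun z => -c ^ 2 * (⟪d, a⟫ * ⟪z, b⟫ + ⟪z, a⟫ * ⟪d, b⟫ - 2 * (⟪z, d⟫ * ⟪z, a⟫ * ⟪z, b⟫)) := by
  funext z
  change fderiv ℝ ((sph1 n V).FF (Wc V c) a b) z (Wc V c z d) = _
  rw [fd_FF, Wc_apply]
  simp only [real_inner_smul_left, inner_sub_left]
  ring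

theorem dir_dir (c : ℝ) (a b d z v : V) :
    fderiv ℝ (fun z => -c ^ 2 * (⟪d, a⟫ * ⟪z, b⟫ + ⟪z, a⟫ * ⟪d, b⟫ -
      2 * (⟪z, d⟫ * ⟪z, a⟫ * ⟪z, b⟫))) z v =
    -c ^ 2 * (⟪d, a⟫ * ⟪v, b⟫ + ⟪v, a⟫ * ⟪d, b⟫ -
      2 * (⟪v, d⟫ * ⟪z, a⟫ * ⟪z, b⟫ + ⟪z, d⟫ * ⟪v, a⟫ * ⟪z, b⟫ + ⟪z, d⟫ * ⟪z, a⟫ * ⟪v, b⟫)) := by
  have h := ((((hasF b z).const_mul ⟪d, a⟫).add ((hasF a z).mul_const ⟪d, b⟫)).sub
    ((((hasF d z).mul (hasF a z)).mul (hasF b z)).const_mul 2)).const_mul (-c ^ 2)
  refine (DFunLike.congr_fun h.fderiv v).trans ?_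
  simp only [smul_apply, add_apply, sub_apply, innerSL_apply_apply, smul_eq_mul, Pi.mul_apply]
  rw [real_inner_comm v a, real_inner_comm v b, real_inner_comm v d]
  ring

theorem fd_W (c : ℝ) (b z v : V) : fderiv ℝ (fun y => Wc V c y b) z v =
    -c • (⟪v, b⟫ • z + ⟪z, b⟫ • v) := by
  have e : (fun y => Wc V c y b) = fun y => c • (b - ⟪y, b⟫ • y) := by
    funext y
    exact Wc_apply c y b
  rw [e]
  have h := (((hasF b z).smul (hasFDerivAt_id z)).const_sub b).const_smul c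
  refine (DFunLike.congr_fun h.fderiv v).trans ?_
  simp only [smul_apply, neg_apply, add_apply, smulRight_apply, innerSL_apply_apply, id_eq,
    ContinuousLinearMap.id_apply]
  rw [real_inner_comm v b, add_comm, smul_neg, neg_smul]

/-- The curvature expression of the round metric. -/
theorem pexp_pos {c : ℝ} (hc : 0 < c) (p : sphere (0 : V) 1) (a b γ : V)
    (ha : (sph1 n V).P ((sph1 n V).j p) a = a) (hb : (sph1 n V).P ((sph1 n V).j p) b = b)
    (haa : (sph1 n V).B a a = 1) (hbb : (sph1 n V).B b b = 1) (hab : (sph1 n V).B a b = 0)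
    (hγ : Wc V c ((sph1 n V).j p) γ = Emb.Br (Wc V c) a b ((sph1 n V).j p)) :
    0 < (sph1 n V).Pexp (Wc V c) ((sph1 n V).j p) a b γ := by
  have za : ⟪(p : V), a⟫ = 0 := by
    have h1 : a - oN (p : V) a = a := ha
    have h2 : oN (p : V) a = 0 := by simpa using h1
    rw [oN_apply] at h2
    rcases smul_eq_zero.1 h2 with h | h
    · exact h
    · have := inner_self_sph p
      rw [h] at this
      simp at this
  have zb : ⟪(p : V), b⟫ = 0 := by
    have h1 : b - oN (p : V) b = b := hb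
    have h2 : oN (p : V) b = 0 := by simpa using h1
    rw [oN_apply] at h2
    rcases smul_eq_zero.1 h2 with h | h
    · exact h
    · have := inner_self_sph p
      rw [h] at this
      simp at this
  have haa' : ⟪a, a⟫ = 1 := haa
  have hbb' : ⟪b, b⟫ = 1 := hbb
  have hab' : ⟪a, b⟫ = 0 := hab
  have hba' : ⟪b, a⟫ = 0 := by rw [real_inner_comm]; exact hab'
  have wa : Wc V c (p : V) a = c • a := by rw [Wc_apply, za, zero_smul, sub_zero]
  have wb : Wc V c (p : V) b = c • b := by rw [Wc_apply, zb, zero_smul, sub_zero]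
  have hbr : Emb.Br (Wc V c) a b (p : V) = 0 := by
    change fderiv ℝ (fun y => Wc V c y b) (p : V) (Wc V c (p : V) a) -
      fderiv ℝ (fun y => Wc V c y a) (p : V) (Wc V c (p : V) b) = 0
    rw [fd_W, fd_W, wa, wb, za, zb, real_inner_smul_left, real_inner_smul_left, hab', hba']
    simp
  have hγ' : Wc V c (p : V) γ = 0 := hγ.trans hbr
  have k1 : Emb.Dir (Wc V c) a (Emb.Dir (Wc V c) a ((sph1 n V).FF (Wc V c) b b)) (p : V) = 0 := by
    rw [dir_FF]
    change fderiv ℝ _ (p : V) (Wc V c (p : V) a) = 0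
    rw [dir_dir, wa, za, zb, real_inner_smul_left, hab']
    ring
  have k2 : Emb.Dir (Wc V c) b (Emb.Dir (Wc V c) b ((sph1 n V).FF (Wc V c) a a)) (p : V) = 0 := by
    rw [dir_FF]
    change fderiv ℝ _ (p : V) (Wc V c (p : V) b) = 0
    rw [dir_dir, wb, za, zb, real_inner_smul_left, hba']
    ring
  have k3 : Emb.Dir (Wc V c) a (Emb.Dir (Wc V c) b ((sph1 n V).FF (Wc V c) a b)) (p : V) =
      -c ^ 3 := by
    rw [dir_FF]
    change fderiv ℝ _ (p : V) (Wc V c (p : V) a) = _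
    rw [dir_dir, wa, za, zb]
    simp only [real_inner_smul_left, hab', hba', haa', hbb']
    ring
  have k4 : Emb.Dir (Wc V c) b (Emb.Dir (Wc V c) a ((sph1 n V).FF (Wc V c) a b)) (p : V) =
      -c ^ 3 := by
    rw [dir_FF]
    change fderiv ℝ _ (p : V) (Wc V c (p : V) b) = _
    rw [dir_dir, wb, za, zb]
    simp only [real_inner_smul_left, hab', hba', haa', hbb']
    ring
  have k5 : ∀ v, fderiv ℝ ((sph1 n V).FF (Wc V c) a a) (p : V) v = 0 := fun v => by
    rw [fd_FF, za]; ring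
  have k6 : ∀ v, fderiv ℝ ((sph1 n V).FF (Wc V c) a b) (p : V) v = 0 := fun v => by
    rw [fd_FF, za, zb]; ring
  change 0 < 1 / 2 * Emb.Dir (Wc V c) a (Emb.Dir (Wc V c) a ((sph1 n V).FF (Wc V c) b b)) (p : V) +
    1 / 2 * Emb.Dir (Wc V c) b (Emb.Dir (Wc V c) b ((sph1 n V).FF (Wc V c) a a)) (p : V) -
    1 / 2 * (Emb.Dir (Wc V c) a (Emb.Dir (Wc V c) b ((sph1 n V).FF (Wc V c) a b)) (p : V) +
      Emb.Dir (Wc V c) b (Emb.Dir (Wc V c) a ((sph1 n V).FF (Wc V c) a b)) (p : V)) -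
    1 / 4 * fderiv ℝ ((sph1 n V).FF (Wc V c) a a) (p : V) _ +
    1 / 4 * fderiv ℝ ((sph1 n V).FF (Wc V c) a b) (p : V) _ +
    3 / 4 * (⟪γ, Wc V c (p : V) γ⟫ - 2 * ⟪γ, Emb.Br (Wc V c) a b (p : V)⟫)
  rw [k1, k2, k3, k4, k5, k6, hbr, hγ', inner_zero_right]
  have : 0 < c ^ 3 := by positivity
  linarith

/-- **The round metrics have positive curvature.** -/
theorem exists_round [NeZero n] {c : ℝ} (hc : 0 < c) :
    ∃ (g : ContMDiffRiemannianMetric (𝓡 n) ∞ (EuclideanSpace ℝ (Fin n))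
        (fun x : sphere (0 : V) 1 => TangentSpace (𝓡 n) x))
      (cov : CovariantDerivative (𝓡 n) (EuclideanSpace ℝ (Fin n))
        (TangentSpace (𝓡 n) : sphere (0 : V) 1 → Type _))
      (R : CurvField (𝓡 n) (sphere (0 : V) 1)),
      IsLeviCivita g cov ∧ IsRiemannTensor cov R ∧
      (∀ (p : sphere (0 : V) 1) (u v : TangentSpace (𝓡 n) p), g.inner p u v = c⁻¹ *
        ⟪mvfderiv (𝓡 n) (fun x : sphere (0 : V) 1 => (x : V)) p u,
          mvfderiv (𝓡 n) (fun x : sphere (0 : V) 1 => (x : V)) p v⟫) ∧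
      ∀ (p : sphere (0 : V) 1) (u v : TangentSpace (𝓡 n) p),
        OrthoPair g p u v → 0 < sec g R p u v := by
  obtain ⟨g, cov, R, h1, h2, h3, h4⟩ := (sph1 n V).exists_positive (com_Wc (n := n) hc)
    (fun p a b γ ha hb haa hbb hab _ hγ => pexp_pos hc p a b γ ha hb haa hbb hab hγ)
  refine ⟨g, cov, R, h1, h2, fun p u v => ?_, h4⟩
  have k := h3 p (c⁻¹ • mvfderiv (𝓡 n) (fun x : sphere (0 : V) 1 => (x : V)) p u) u ?_ v
  · refine k.trans ?_
    change ⟪c⁻¹ • _, _⟫ = _
    rw [real_inner_smul_left]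
    rfl
  · change mvfderiv (𝓡 n) (fun x : sphere (0 : V) 1 => (x : V)) p u = Wc V c (p : V) _
    rw [Wc_apply, real_inner_smul_right, d_coe_orth, mul_zero, zero_smul, sub_zero, smul_smul,
      mul_inv_cancel₀ hc.ne', one_smul]

end

end Pool.Agent.X214.S7
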